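import Mathlib
import Pool.Agent.Helper94.Tarski.Indic

set_option autoImplicit false

namespace Pool.Agent.Results.MP_d45015_al.LawLocInd

/-- Let `G` be a group with a total order invariant under right multiplication that satisfies a
nontrivial law. Then `G` is locally indicable: every nontrivial finitely generated subgroup of `G`
maps onto `ℤ`. -/
theorem result :
    ∀ (G : Type) [Group G],
      (∃ lo : LinearOrder G, ∀ a b c : G, lo.lt a b → lo.lt (a * c) (b * c)) →
      (∃ (r : ℕ) (w : FreeGroup (Fin r)), w ≠ 1 ∧ ∀ f : Fin r → G, FreeGroup.lift f w = 1) →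
        ∀ H : Subgroup G, H.FG → H ≠ ⊥ →
          ∃ φ : H →* Multiplicative ℤ, Function.Surjective φ := by
  classical
  rintro G _ ⟨lo, hlo⟩ ⟨r, w, hw, hlaw⟩ H hH hHb
  have hnt : Nontrivial H := (Subgroup.nontrivial_iff_ne_bot H).2 hHb
  refine Pool.Agent.Helper94.Tarski.surj_of_law (G := H)
    ((Group.fg_iff_subgroup_fg H).2 hH)
    (fun a b => lo.lt (a : G) (b : G))
    (fun a h => ((lo.lt_iff_le_not_ge _ _).1 h).2 (lo.le_refl _))
    (by
      intro a b d h1 h2
      let _ := lo
      exact lt_trans (a := (a : G)) h1 h2)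
    (by
      intro a b
      let _ := lo
      rcases lt_trichotomy (a : G) (b : G) with h | h | h
      · exact Or.inl h
      · exact Or.inr (Or.inl (Subtype.ext h))
      · exact Or.inr (Or.inr h))
    (fun a b c h => hlo _ _ _ h) r w hw ?_
  intro f
  have h1 := hlaw (fun i => (f i : G))
  have h2 : (FreeGroup.lift (fun i => (f i : G))) = H.subtype.comp (FreeGroup.lift f) := by
    ext i
    simp
  rw [h2] at h1
  exact Subtype.ext h1

end Pool.Agent.Results.MP_d45015_al.LawLocInd
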